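import Pool.Agent.Lib_helper71.RP.Main

/-!
The isosystolic inequality of Alvarez Paiva, Balacheff and Tzanev for (not necessarily reversible)
Finsler metrics on `RP^n` fails for `n = 5`, by any factor smaller than `(4/3)^(1/5)`.

Idea.  Let `T^2` be the torus with the non-reversible norm `max (v₁, v₂, -v₁-v₂)` and let
`ξ = L₁ ⊕ L₂ ⊕ L₁⊗L₂ ⊕ ℝ` be the sum of the flat real line bundles.  On the total space `P(ξ)`
(fibre `RP^3`) every closed curve which is odd has length at least one for the metric which is the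
maximum of the above norm of the base and of an `ℓ¹` type metric of the fibre, and the volume of
this metric is `3/4` of the conjectured minimum.  The open subset
`{all |z_j| bounded below, |Im z₀z₁z₂| small}` of `RP^5 = P(ℂ^3)` maps bijectively, up to null
sets, to `P(ξ)`; the rest of `RP^5` is handled by closed forms of rank at most four, which carry
no volume.  Everything is given by finitely many explicit smooth 1-forms on `ℂ^3 ∖ 0`; their
maximum is smoothed at the end.
-/

set_option autoImplicit false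

namespace Pool.Agent.Results.MP_282f00_gt.FinslerIsosystolicDisproof

open MeasureTheory Set
open Pool.Agent.Lib_helper71.RP
open scoped ENNReal

/-- The volume of the Euclidean unit ball of `ℝ^n`. -/
noncomputable def unitBallVol (n : ℕ) : ℝ≥0∞ :=
  volume (Metric.ball (0 : EuclideanSpace ℝ (Fin n)) 1)

/-- The Holmes-Thompson volume of a Finsler metric on `RP^n`, computed in the affine chart
`y ↦ [1 : y]`, whose complement is a null set. -/
noncomputable def volHT {n : ℕ} (F : (Fin (n + 1) → ℝ) → (Fin (n + 1) → ℝ) → ℝ) : ℝ≥0∞ :=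
  (unitBallVol n)⁻¹ * polarVol F

/-- The constant `σ_n = (n! v_n)^(1/n) / 2`. -/
noncomputable def sigmaConst (n : ℕ) : ℝ :=
  1 / 2 * ((n.factorial : ℝ) * (unitBallVol n).toReal) ^ ((1 : ℝ) / (n : ℝ))

/-- Subtracting a small multiple of the round metric leaves a subadditive function; in particular
the squares of the norms `F x` are strongly convex. -/
def IsUniformlyConvex {n : ℕ} (F : (Fin (n + 1) → ℝ) → (Fin (n + 1) → ℝ) → ℝ) : Prop :=
  ∃ e : ℝ, 0 < e ∧ ∀ x w w' : Fin (n + 1) → ℝ, x ≠ 0 →
    F x (w + w') - e * rho x (w + w') ≤ (F x w - e * rho x w) + (F x w' - e * rho x w')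

/-- On `RP^5` there are Finsler metrics all of whose non-contractible closed `C¹` curves, in
particular all of whose non-contractible closed geodesics, are longer than
`k σ_5 (volume)^(1/5)`, for every `k` with `k^5 < 4/3`. -/
theorem result : ∀ k : ℝ, 0 < k → k ^ 5 < 4 / 3 →
    ∃ F : (Fin (5 + 1) → ℝ) → (Fin (5 + 1) → ℝ) → ℝ,
      IsFinslerRP 5 F ∧ IsUniformlyConvex F ∧ volHT F ≠ ⊤ ∧
      ∀ (c : ℝ → (Fin (5 + 1) → ℝ)) (hc : IsClosedCurve 5 c), ¬ IsContractible (curve hc) →
        k * (sigmaConst 5 * (volHT F).toReal ^ ((1 : ℝ) / 5)) < len F c := by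
  intro k hk hk5
  have hb : ENNReal.ofReal (1 / 5) < ENNReal.ofReal (4 / (15 * k ^ 5)) := by
    rw [ENNReal.ofReal_lt_ofReal_iff (by positivity), lt_div_iff₀ (by positivity)]
    linarith
  obtain ⟨F, hF, ⟨e, he, hconv⟩, hsys, hvol⟩ := exists_metric hb
  have hv0 : unitBallVol 5 ≠ 0 := by
    unfold unitBallVol
    exact (Metric.measure_ball_pos volume (0 : EuclideanSpace ℝ (Fin 5)) one_pos).ne'
  have hvt : unitBallVol 5 ≠ ⊤ := by
    unfold unitBallVol
    exact measure_ball_lt_top.ne
  have hP : polarVol F ≠ ⊤ := (hvol.trans_le le_top).ne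
  have hvr : 0 < (unitBallVol 5).toReal := ENNReal.toReal_pos hv0 hvt
  refine ⟨F, hF, ⟨e, he, hconv⟩, ENNReal.mul_ne_top (ENNReal.inv_ne_top.2 hv0) hP, ?_⟩
  intro c hc hnc
  refine lt_of_lt_of_le ?_ (hsys c (odd_of_not_contractible (by norm_num) hc hnc))
  have hP' : (polarVol F).toReal < 4 / (15 * k ^ 5) := by
    have h1 := (ENNReal.lt_ofReal_iff_toReal_lt hP).1 hvol
    exact h1
  have h0 : 0 ≤ (polarVol F).toReal := ENNReal.toReal_nonneg
  rw [sigmaConst, volHT, ENNReal.toReal_mul, ENNReal.toReal_inv]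
  have e1 : (1 : ℝ) / ((5 : ℕ) : ℝ) = 1 / 5 := by norm_num
  rw [e1, mul_assoc (1 / 2 : ℝ), ← Real.mul_rpow (by positivity) (by positivity)]
  have e2 : ((5 : ℕ).factorial : ℝ) * (unitBallVol 5).toReal *
      ((unitBallVol 5).toReal⁻¹ * (polarVol F).toReal) = 120 * (polarVol F).toReal := by
    have : ((5 : ℕ).factorial : ℝ) = 120 := by norm_num [Nat.factorial]
    rw [this]
    field_simp
  rw [e2]
  have e3 : 120 * (polarVol F).toReal < (2 / k) ^ 5 := by
    have : (2 / k) ^ 5 = 120 * (4 / (15 * k ^ 5)) := by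
      field_simp
      norm_num
    rw [this]
    linarith
  have e4 : (120 * (polarVol F).toReal) ^ ((1 : ℝ) / 5) < 2 / k := by
    have h1 := Real.rpow_lt_rpow (by positivity) e3 (show (0 : ℝ) < 1 / 5 by norm_num)
    have h2 : ((2 / k) ^ 5) ^ ((1 : ℝ) / 5) = 2 / k := by
      have h3 := Real.pow_rpow_inv_natCast (x := 2 / k) (n := 5) (by positivity) (by norm_num)
      rw [show ((1 : ℝ) / 5) = (((5 : ℕ) : ℝ))⁻¹ by norm_num]
      exact h3
    rwa [h2] at h1
  calc k * (1 / 2 * (120 * (polarVol F).toReal) ^ ((1 : ℝ) / 5))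
      < k * (1 / 2 * (2 / k)) := by
        apply mul_lt_mul_of_pos_left _ hk
        apply mul_lt_mul_of_pos_left e4 (by norm_num)
    _ = 1 := by field_simp

end Pool.Agent.Results.MP_282f00_gt.FinslerIsosystolicDisproof
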